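import Mathlib

open Set Filter Topology Complex
open scoped ContDiff

namespace Pool.Agent.H.MP_430a41_an

variable {n : ℕ}

/-- Complexification of a real linear map. -/
def cx (A : (Fin n → ℝ) →L[ℝ] Fin n → ℝ) (v : Fin n → ℂ) : Fin n → ℂ :=
  fun i => ⟨A (fun j => (v j).re) i, A (fun j => (v j).im) i⟩

/-- Derivative of the complex vector field `Y` along the complex vector `v` at `q`. -/
noncomputable def dv (Y : (Fin n → ℝ) → Fin n → ℂ) (q : Fin n → ℝ) (v : Fin n → ℂ) : Fin n → ℂ :=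
  fderiv ℝ Y q (fun j => (v j).re) + I • fderiv ℝ Y q fun j => (v j).im

/-- `H` is a smooth CR structure of rank `r` on `ℝⁿ`. -/
structure IsCR (r : ℕ) (H : (Fin n → ℝ) → Submodule ℂ (Fin n → ℂ)) : Prop where
  bundle : ∀ p, ∃ U, IsOpen U ∧ p ∈ U ∧ ∃ L : Fin r → (Fin n → ℝ) → Fin n → ℂ,
    (∀ j, ContDiffOn ℝ ∞ (L j) U) ∧
      ∀ q ∈ U, LinearIndependent ℂ (L · q) ∧ Submodule.span ℂ (range (L · q)) = H q
  real : ∀ q, ∀ v ∈ H q, star v ∈ H q → v = 0
  invol : ∀ U, IsOpen U → ∀ X Y, ContDiffOn ℝ ∞ X U → ContDiffOn ℝ ∞ Y U →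
    (∀ q ∈ U, X q ∈ H q) → (∀ q ∈ U, Y q ∈ H q) → ∀ q ∈ U, dv Y q (X q) - dv X q (Y q) ∈ H q

/-- CR diffeomorphisms between open sets. -/
def IsCRD (H : (Fin n → ℝ) → Submodule ℂ (Fin n → ℂ))
    (h : OpenPartialHomeomorph (Fin n → ℝ) (Fin n → ℝ)) : Prop :=
  ContDiffOn ℝ ∞ h h.source ∧ ContDiffOn ℝ ∞ h.symm h.target ∧
    ∀ q ∈ h.source, cx (fderiv ℝ h q) '' H q = H (h q)

/-- The orbit `O(p)`. -/
def O (H : (Fin n → ℝ) → Submodule ℂ (Fin n → ℂ)) (p : Fin n → ℝ) : Set (Fin n → ℝ) :=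
  {q | ∃ h, IsCRD H h ∧ p ∈ h.source ∧ h p = q}

/-- Infinitesimal CR automorphisms near `q`. -/
def hol (H : (Fin n → ℝ) → Submodule ℂ (Fin n → ℂ)) (q : Fin n → ℝ) :
    Set ((Fin n → ℝ) → Fin n → ℝ) :=
  {X | ∃ U W, IsOpen U ∧ IsOpen W ∧ q ∈ W ∧ ContDiffOn ℝ ∞ X U ∧ ∃ δ > (0 : ℝ),
    ∃ φ : ℝ → OpenPartialHomeomorph (Fin n → ℝ) (Fin n → ℝ), (∀ x ∈ W, φ 0 x = x) ∧
      ∀ t ∈ Ioo (-δ) δ, IsCRD H (φ t) ∧ (φ t).source = W ∧
        ∀ x ∈ W, φ t x ∈ U ∧ HasDerivAt (φ · x) (X (φ t x)) t}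

variable {H : (Fin n → ℝ) → Submodule ℂ (Fin n → ℂ)}
  {h : OpenPartialHomeomorph (Fin n → ℝ) (Fin n → ℝ)}

lemma IsCRD.at (c : IsCRD H h) {q} (hq : q ∈ h.source) : ContDiffAt ℝ ∞ h q :=
  c.1.contDiffAt (h.open_source.mem_nhds hq)

lemma inv (c1 : ContDiffOn ℝ ∞ h h.source) (c2 : ContDiffOn ℝ ∞ h.symm h.target) {q}
    (hq : q ∈ h.source) (w) : fderiv ℝ h.symm (h q) (fderiv ℝ h q w) = w := by
  have d1 := (c1.contDiffAt (h.open_source.mem_nhds hq)).differentiableAt (by simp)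
  have d2 := (c2.contDiffAt (h.open_target.mem_nhds (h.map_source hq))).differentiableAt (by simp)
  have k := (d2.hasFDerivAt.comp q d1.hasFDerivAt).unique
    ((hasFDerivAt_id q).congr_of_eventuallyEq (h.eventually_left_inverse hq))
  exact congrArg (· w) k

lemma IsCRD.symm (c : IsCRD H h) : IsCRD H h.symm := by
  refine ⟨c.2.1, c.1, fun q hq => ?_⟩
  have e := c.2.2 _ (h.map_target hq)
  have i := inv c.1 c.2.1 (h.map_target hq)
  rw [h.right_inv hq] at e i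
  rw [← e, image_image]
  exact (image_congr fun v _ => funext fun j => Complex.ext (congrFun (i _) j)
    (congrFun (i _) j)).trans (image_id _)

abbrev E := Fin 5 → ℝ

def s (q : E) : ℝ × ℝ := (q 3, q 4)

variable (g : ℝ × ℝ → ℝ)

def L (q : E) : Fin 5 → ℂ := ![1, I, (g (s q) * q 0 : ℝ) * I, 0, 0]

noncomputable def HH (q : E) : Submodule ℂ (Fin 5 → ℂ) := Submodule.span ℂ {L g q}

variable {g}

@[fun_prop] lemma ds : ContDiff ℝ ∞ s := by unfold s; fun_prop

lemma dL (hg : ContDiff ℝ ∞ g) : ContDiff ℝ ∞ (L g) := by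
  have := (hg.comp ds).mul (contDiff_apply ℝ ℝ 0)
  refine contDiff_pi.2 fun i => ?_
  fin_cases i
  any_goals exact contDiff_const
  exact (ofRealCLM.contDiff.comp this).mul contDiff_const

lemma mem {q v} : v ∈ HH g q ↔ v = v 0 • L g q := by
  rw [HH, Submodule.mem_span_singleton]
  exact ⟨fun ⟨a, e⟩ => by rw [← e]; simp [L], fun e => ⟨_, e.symm⟩⟩

theorem isCR (hg : ContDiff ℝ ∞ g) : IsCR 1 (HH g) := by
  refine ⟨fun p => ⟨univ, isOpen_univ, trivial, fun _ => L g, fun _ => (dL hg).contDiffOn,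
    fun q _ => ⟨?_, by simp [HH]⟩⟩, fun q v h1 h2 => ?_, fun U hU X Y dX dY hX hY q hq => ?_⟩
  · rw [linearIndependent_unique_iff]
    intro e
    simpa [L] using congrFun e 0
  · rw [mem] at h1 h2
    have a := congrFun h1 1
    have b := congrFun h2 1
    simp only [Pi.star_apply, a] at b
    simp [L, neg_eq_self] at b
    rw [h1, b, zero_smul]
  · have k : ∀ X : E → Fin 5 → ℂ, ContDiffOn ℝ ∞ X U → (∀ q ∈ U, X q ∈ HH g q) → ∀ w,
        fderiv ℝ X q w = X q 0 • fderiv ℝ (L g) q w + fderiv ℝ (X · 0) q w • L g q :=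
      fun X dX hX w => by
        have d := (dX.contDiffAt (hU.mem_nhds hq)).differentiableAt (by simp)
        have e : X =ᶠ[𝓝 q] fun x => X x 0 • L g x := by
          filter_upwards [hU.mem_nhds hq] with x hx using mem.1 (hX x hx)
        rw [e.fderiv_eq, fderiv_fun_smul (differentiableAt_pi.1 d 0)
          (((dL hg).differentiable (by simp)) q)]
        simp
    have l : ∀ a : ℂ, dv (L g) q (a • L g q) = a • dv (L g) q (L g q) := fun a => by
      have r : (fun j => ((a • L g q) j).re) =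
          a.re • (fun j => (L g q j).re) - a.im • fun j => (L g q j).im := by ext j; simp
      have i : (fun j => ((a • L g q) j).im) =
          a.re • (fun j => (L g q j).im) + a.im • fun j => (L g q j).re := by ext j; simp
      simp only [dv, r, i, map_sub, map_add, map_smul]
      ext j
      simp only [Pi.add_apply, Pi.sub_apply, Pi.smul_apply, smul_eq_mul, real_smul]
      linear_combination (-(a.im : ℂ) * fderiv ℝ (L g) q (fun j => (L g q j).im) j) * I_sq +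
        (fderiv ℝ (L g) q (fun j => (L g q j).re) j +
          I * fderiv ℝ (L g) q (fun j => (L g q j).im) j) * re_add_im a
    have m : ∀ X : E → Fin 5 → ℂ, ContDiffOn ℝ ∞ X U → (∀ q ∈ U, X q ∈ HH g q) → ∀ a : ℂ, ∃ b : ℂ,
        dv X q (a • L g q) = (X q 0 * a) • dv (L g) q (L g q) + b • L g q := fun X dX hX a => by
      refine ⟨fderiv ℝ (X · 0) q (fun j => ((a • L g q) j).re) +
        I * fderiv ℝ (X · 0) q fun j => ((a • L g q) j).im, ?_⟩
      rw [mul_smul, ← l, dv, dv, k X dX hX, k X dX hX]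
      module
    obtain ⟨b, hb⟩ := m Y dY hY (X q 0)
    obtain ⟨c, hc⟩ := m X dX hX (Y q 0)
    rw [← mem.1 (hX q hq)] at hb
    rw [← mem.1 (hY q hq)] at hc
    rw [hb, hc, mul_comm, add_sub_add_left_eq_sub, ← sub_smul]
    exact Submodule.smul_mem _ _ (Submodule.mem_span_singleton_self _)

variable {h : OpenPartialHomeomorph E E}

lemma comp (c : IsCRD (HH g) h) {q} (hq : q ∈ h.source) (h0 : g (s q) = 0) : ∃ a b : ℝ,
    fderiv ℝ h q ![1, 0, 0, 0, 0] = ![a, -b, -b * (g (s (h q)) * h q 0), 0, 0] ∧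
    fderiv ℝ h q ![0, 1, 0, 0, 0] = ![b, a, a * (g (s (h q)) * h q 0), 0, 0] := by
  have : cx (fderiv ℝ h q) (L g q) ∈ HH g (h q) := by
    rw [← SetLike.mem_coe, ← c.2.2 q hq]
    exact mem_image_of_mem _ (Submodule.mem_span_singleton_self _)
  obtain ⟨z, e⟩ := Submodule.mem_span_singleton.1 this
  have r : (fun j => (L g q j).re) = ![1, 0, 0, 0, 0] := by ext j; fin_cases j <;> simp [L]
  have i : (fun j => (L g q j).im) = ![0, 1, 0, 0, 0] := by ext j; fin_cases j <;> simp [L, h0]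
  refine ⟨z.re, z.im, funext fun j => ?_, funext fun j => ?_⟩
  · rw [← r]
    refine (congrArg re (congrFun e j)).symm.trans ?_
    fin_cases j <;> simp [L]
  · rw [← i]
    refine (congrArg im (congrFun e j)).symm.trans ?_
    fin_cases j <;> simp [L]

theorem deg (hg : ContDiff ℝ ∞ g) (c : IsCRD (HH g) h) {q} (hq : q ∈ h.source) (h0 : g (s q) = 0) :
    g (s (h q)) = 0 := by
  set F := fderiv ℝ h with hF
  have dh : DifferentiableAt ℝ h q := (c.at hq).differentiableAt (by simp)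
  have dF : DifferentiableAt ℝ F q :=
    ((c.at hq).fderiv_right (m := 1) (by norm_cast)).differentiableAt (by simp)
  have sy := (c.at hq).isSymmSndFDerivAt (by simp; norm_cast)
  obtain ⟨a, b, ha, hb⟩ := comp c hq h0
  have key : ∀ v w : E, v 3 = 0 → v 4 = 0 → F q v 3 = 0 → F q v 4 = 0 →
      (∀ x ∈ h.source, g (s x) = 0 → F x w 2 = g (s (h x)) * h x 0 * F x w 1) →
      fderiv ℝ F q v w 2 = g (s (h q)) * F q v 0 * F q w 1 +
        g (s (h q)) * h q 0 * fderiv ℝ F q v w 1 := fun v w v3 v4 f3 f4 hw => by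
    have γ : HasDerivAt (fun t : ℝ => q + t • v) v 0 := by
      simpa using ((hasDerivAt_id (0 : ℝ)).smul_const v).const_add q
    have z : q + (0 : ℝ) • v = q := by simp
    have d1 : HasDerivAt (fun t : ℝ => h (q + t • v)) (F q v) 0 :=
      (dh.hasFDerivAt.comp_hasDerivAt_of_eq (0 : ℝ) γ z.symm :)
    have d2 : HasDerivAt (fun t : ℝ => F (q + t • v) w) (fderiv ℝ F q v w) 0 := by
      simpa using (dF.hasFDerivAt.comp_hasDerivAt_of_eq (0 : ℝ) γ z.symm).clm_apply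
        (hasDerivAt_const _ w)
    have d3 : HasDerivAt (fun t : ℝ => g (s (h (q + t • v)))) 0 0 := by
      have := (hg.differentiable (by simp) _).hasFDerivAt.comp_hasDerivAt (0 : ℝ)
        ((hasDerivAt_pi.1 d1 3).prodMk (hasDerivAt_pi.1 d1 4))
      rwa [f3, f4, Prod.mk_zero_zero, map_zero] at this
    have := (hasDerivAt_pi.1 d2 2).unique (((d3.mul (hasDerivAt_pi.1 d1 0)).mul
      (hasDerivAt_pi.1 d2 1)).congr_of_eventuallyEq (by
        filter_upwards [γ.continuousAt.preimage_mem_nhds (h.open_source.mem_nhds (z.symm ▸ hq))]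
          with t ht
        exact hw _ ht (by simpa [s, v3, v4] using h0)))
    simpa using this
  have k1 := key ![1, 0, 0, 0, 0] ![0, 1, 0, 0, 0] rfl rfl (congrFun ha 3) (congrFun ha 4)
    fun x hx h0 => by obtain ⟨a, b, -, e⟩ := comp c hx h0; simp [hF, e, mul_comm]
  have k2 := key ![0, 1, 0, 0, 0] ![1, 0, 0, 0, 0] rfl rfl (congrFun hb 3) (congrFun hb 4)
    fun x hx h0 => by obtain ⟨a, b, e, -⟩ := comp c hx h0; simp [hF, e, mul_comm]
  rw [hF, sy.eq, k2, ha, hb] at k1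
  have e : g (s (h q)) * (a ^ 2 + b ^ 2) = 0 := by
    simp at k1
    linear_combination -k1
  refine (mul_eq_zero.1 e).resolve_right fun n => ?_
  have a0 : a = 0 := by nlinarith
  have b0 : b = 0 := by nlinarith
  have i := inv c.1 c.2.1 hq ![1, 0, 0, 0, 0]
  rw [← hF, ha, a0, b0, show (![0, -0, -0 * (g (s (h q)) * h q 0), 0, 0] : E) = 0 by
    ext j; fin_cases j <;> simp, map_zero] at i
  simpa using congrFun i 0

/-- zero set of `g` is thin -/
def Thin (g : ℝ × ℝ → ℝ) : Prop := (∀ x, g (x, 0) = 0) ∧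
  ∃ T : Set ℝ, T.Countable ∧ ∀ z, g z = 0 → z.2 ∈ T ∧ (z.2 ≠ 0 → z.1 ∈ T)

lemma path (hT : Thin g) {γ : ℝ → E} {δ : ℝ} (hδ : 0 < δ) (hγ : ContinuousOn γ (Ioo (-δ) δ))
    (hz : ∀ t ∈ Ioo (-δ) δ, g (s (γ t)) = 0) (h0 : γ 0 4 ≠ 0) {v : E} (hv : HasDerivAt γ v 0) :
    v 3 = 0 ∧ v 4 = 0 := by
  obtain ⟨-, T, hc, hT⟩ := hT
  have m : (0 : ℝ) ∈ Ioo (-δ) δ := ⟨by linarith, hδ⟩
  have k : ∀ i, (∀ t ∈ Ioo (-δ) δ, γ t i ∈ T) → ∀ t ∈ Ioo (-δ) δ, γ t i = γ 0 i := fun i hi t ht =>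
    hc.isTotallyDisconnected _ (by rintro _ ⟨t, ht, rfl⟩; exact hi t ht)
      (isPreconnected_Ioo.image _ ((continuous_apply i).comp_continuousOn hγ))
      (mem_image_of_mem _ ht) (mem_image_of_mem _ m)
  have k4 := k 4 fun t ht => (hT _ (hz t ht)).1
  have k3 := k 3 fun t ht => (hT _ (hz t ht)).2 (by rw [← k4 t ht] at h0; exact h0)
  exact ⟨(hasDerivAt_pi.1 hv 3).unique ((hasDerivAt_const _ _).congr_of_eventuallyEq
      (mem_of_superset (isOpen_Ioo.mem_nhds m) k3)),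
    (hasDerivAt_pi.1 hv 4).unique ((hasDerivAt_const _ _).congr_of_eventuallyEq
      (mem_of_superset (isOpen_Ioo.mem_nhds m) k4))⟩

theorem axis (hg : ContDiff ℝ ∞ g) (hT : Thin g) (c : IsCRD (HH g) h) {p} (hp : p ∈ h.source)
    (h0 : p 4 = 0) : h p 4 = 0 := by
  by_contra hn
  have k : ∀ v : E, v 4 = 0 → fderiv ℝ h p v 3 = 0 ∧ fderiv ℝ h p v 4 = 0 := fun v hv => by
    have γ : HasDerivAt (fun t : ℝ => p + t • v) v 0 := by
      simpa using ((hasDerivAt_id (0 : ℝ)).smul_const v).const_add p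
    have z : p + (0 : ℝ) • v = p := by simp
    obtain ⟨δ, hδ, b⟩ := Metric.mem_nhds_iff.1
      (γ.continuousAt.preimage_mem_nhds (h.open_source.mem_nhds (z.symm ▸ hp)))
    rw [Real.ball_eq_Ioo, zero_sub, zero_add] at b
    exact path hT (γ := fun t => h (p + t • v)) hδ (h.continuousOn.comp (by fun_prop) b)
      (fun t ht => deg hg c (b ht) (by simp [s, h0, hv, hT.1])) (by rwa [z])
      (((c.at hp).differentiableAt (by simp)).hasFDerivAt.comp_hasDerivAt_of_eq (0 : ℝ) γ z.symm :)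
  have i := inv c.symm.1 c.symm.2.1 (h.map_source hp)
  rw [h.left_inv hp, h.symm_symm] at i
  have d : ∀ u : E, ∃ r : ℝ, u 3 = r * fderiv ℝ h p ![0, 0, 0, 0, 1] 3 ∧
      u 4 = r * fderiv ℝ h p ![0, 0, 0, 0, 1] 4 := fun u => by
    obtain ⟨w, rfl⟩ : ∃ w, fderiv ℝ h p w = u := ⟨_, i u⟩
    have := k (w - w 4 • ![0, 0, 0, 0, 1]) (by simp)
    rw [map_sub, map_smul] at this
    exact ⟨w 4, sub_eq_zero.1 this.1, sub_eq_zero.1 this.2⟩
  obtain ⟨r, a1, a2⟩ := d ![0, 0, 0, 1, 0]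
  obtain ⟨t, -, b2⟩ := d ![0, 0, 0, 0, 1]
  change (1 : ℝ) = _ at a1 b2
  change (0 : ℝ) = _ at a2
  rcases mul_eq_zero.1 a2.symm with a2 | a2
  · simp [a2] at a1
  · simp [a2] at b2

theorem shear (hg : ContDiff ℝ ∞ g) {α : ℝ → ℝ} (hα : ContDiff ℝ ∞ α)
    (e : ∀ x y, g (x + α y, y) = g (x, y)) (a b c : ℝ) : ![a, b, c, α 0, 0] ∈ O (HH g) 0 := by
  have e' : ∀ x y, g (x - α y, y) = g (x, y) := fun x y => by rw [← e, sub_add_cancel]
  let f : E → E := fun q => ![q 0 + a, q 1 + b, q 2 + c + g (s q) * a * q 1, q 3 + α (q 4), q 4]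
  let f' : E → E := fun q =>
    ![q 0 - a, q 1 - b, q 2 - c - g (s q) * a * (q 1 - b), q 3 - α (q 4), q 4]
  have df : ContDiff ℝ ∞ f := contDiff_pi.2 fun i => by
    fin_cases i <;> simp only [f] <;> simp <;> fun_prop
  have df' : ContDiff ℝ ∞ f' := contDiff_pi.2 fun i => by
    fin_cases i <;> simp only [f'] <;> simp <;> fun_prop
  let Φ : E ≃ₜ E :=
    { toFun := f, invFun := f', continuous_toFun := df.continuous,
      continuous_invFun := df'.continuous
      left_inv := fun q => by ext i; fin_cases i <;> simp [f, f', s, e]; ring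
      right_inv := fun q => by ext i; fin_cases i <;> simp [f, f', s, e']; ring }
  refine ⟨Φ.toOpenPartialHomeomorph, ⟨df.contDiffOn, df'.contDiffOn, fun q _ => ?_⟩, trivial, ?_⟩
  · have k : ∀ v : E, v 3 = 0 → v 4 = 0 →
        fderiv ℝ f q v = ![v 0, v 1, v 2 + g (s q) * a * v 1, 0, 0] := fun v h3 h4 => by
      have γ : HasDerivAt (fun t : ℝ => q + t • v) v 0 := by
        simpa using ((hasDerivAt_id (0 : ℝ)).smul_const v).const_add q
      refine ((df.differentiable (by simp) q).hasFDerivAt.comp_hasDerivAt_of_eq (0 : ℝ) γ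
        (by simp)).unique ?_
      have := ((hasDerivAt_id (0 : ℝ)).smul_const
        (![v 0, v 1, v 2 + g (s q) * a * v 1, 0, 0] : E)).const_add (f q)
      rw [one_smul] at this
      refine this.congr_of_eventuallyEq (.of_forall fun t => ?_)
      ext i; fin_cases i <;> simp [f, s, h3, h4] <;> ring
    have m : ∀ z : ℂ, cx (fderiv ℝ f q) (z • L g q) = z • L g (f q) := fun z => by
      unfold cx
      rw [k _ (by simp [L]) (by simp [L]), k _ (by simp [L]) (by simp [L])]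
      ext i; fin_cases i <;> simp [L, f, s, e, Complex.ext_iff] <;> constructor <;> ring
    ext v
    simp only [HH, mem_image, SetLike.mem_coe, Submodule.mem_span_singleton]
    exact ⟨fun ⟨_, ⟨z, hz⟩, hv⟩ => ⟨z, by rw [← hv, ← hz]; exact (m z).symm⟩,
      fun ⟨z, hz⟩ => ⟨_, ⟨z, rfl⟩, (m z).trans hz⟩⟩
  · show f 0 = _
    simp [f]

end Pool.Agent.H.MP_430a41_an
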