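import Mathlib
import Pool.Agent.H.MP_430a41_an.A

open Set Filter Topology Real
open scoped ContDiff

namespace Pool.Agent.H.MP_430a41_an

variable {F : Type} [NormedAddCommGroup F] [NormedSpace ℝ F]

lemma small {u : F → ℝ} (hb : ∀ k, ∃ C, ∀ x, ‖iteratedFDeriv ℝ k u x‖ ≤ C) (n : ℕ) :
    ∃ c > (0 : ℝ), ∀ k ≤ n, ∀ x, c * ‖iteratedFDeriv ℝ k u x‖ ≤ (1 / 2) ^ n := by
  choose C hC using hb
  have p : 0 < ∑ k ∈ Finset.range (n + 1), |C k| + 1 := by positivity
  refine ⟨(1 / 2) ^ n / (∑ k ∈ Finset.range (n + 1), |C k| + 1), by positivity, fun k hk x => ?_⟩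
  rw [div_mul_eq_mul_div, div_le_iff₀ p]
  have := Finset.single_le_sum (f := fun k => |C k|) (fun _ _ => abs_nonneg _)
    (Finset.mem_range.2 (Nat.lt_succ_of_le hk))
  gcongr
  linarith [hC k x, le_abs_self (C k)]

lemma ssum {u : ℕ → F → ℝ} {c d : ℕ → ℝ} (hu : ∀ n, ContDiff ℝ ∞ (u n)) (hd : ∀ n, |d n| ≤ c n)
    (h : ∀ n, ∀ k ≤ n, ∀ x, c n * ‖iteratedFDeriv ℝ k (u n) x‖ ≤ (1 / 2) ^ n) :
    ContDiff ℝ ∞ fun x => ∑' n, d n * u n x := by
  refine contDiff_tsum_of_eventually (v := fun _ n => (1 / 2) ^ n)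
    (fun n => contDiff_const.mul (hu n)) (fun _ _ => summable_geometric_two) fun k _ => ?_
  rw [Nat.cofinite_eq_atTop]
  filter_upwards [eventually_ge_atTop k] with n hn x
  have := iteratedFDeriv_const_smul_apply' (a := d n) (x := x) (i := k)
    ((hu n).contDiffAt.of_le (mod_cast le_top))
  simp only [smul_eq_mul] at this
  rw [this, norm_smul]
  exact (mul_le_mul_of_nonneg_right (hd n) (norm_nonneg _)).trans (h n k hn x)

noncomputable def b1 : ContDiffBump (1 : ℝ) := ⟨1 / 16, 1 / 8, by norm_num, by norm_num⟩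
noncomputable def b2 : ContDiffBump (1 : ℝ) := ⟨1 / 8, 1 / 4, by norm_num, by norm_num⟩

lemma bz (b : ContDiffBump (1 : ℝ)) {t s : ℝ} (ht : 0 < t) (h : b (s / t) ≠ 0) :
    (1 - b.rOut) * t < s ∧ s < (1 + b.rOut) * t := by
  have : s / t ∈ Function.support b := h
  rw [b.support_eq, Real.ball_eq_Ioo, mem_Ioo, lt_div_iff₀ ht, div_lt_iff₀ ht] at this
  exact this

lemma sep {y : ℕ → ℝ} (h0 : ∀ n, 0 < y n) (hy : ∀ n, y (n + 1) ≤ y n / 2) {n : ℕ} {s : ℝ}
    (h : b1 (s / y n) ≠ 0) : b2 (s / y n) = 1 ∧ ∀ m ≠ n, b2 (s / y m) = 0 := by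
  have an : Antitone y := antitone_nat_of_succ_le fun n => by linarith [hy n, h0 n]
  have lt : ∀ m n, m < n → y n ≤ y m / 2 := fun m n h => (an h).trans (hy m)
  refine ⟨b2.one_of_mem_closedBall (Metric.ball_subset_closedBall ?_), fun m hm => ?_⟩
  · exact (b1.support_eq ▸ h : s / y n ∈ Metric.ball 1 b1.rOut)
  · by_contra h2
    have a := bz b1 (h0 n) h
    have b := bz b2 (h0 m) h2
    simp only [b1, b2] at a b
    rcases hm.lt_or_gt with l | l <;> linarith [lt _ _ l, h0 m, h0 n]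

theorem exg : ∃ cc : ℕ → ℝ → ℝ, (∀ n t, 0 < t → 0 < cc n t) ∧ ∀ y ε : ℕ → ℝ, (∀ n, 0 < y n) →
    (∀ n, y (n + 1) ≤ y n / 2) → Tendsto y atTop (𝓝 0) → (∀ n, 0 < ε n) →
    ∃ g : ℝ × ℝ → ℝ, ContDiff ℝ ∞ g ∧
      (∀ z, g z = 0 ↔ z.2 = 0 ∨ ∃ n, z.2 = y n ∧ ∃ k : ℤ, z.1 = k * ε n) ∧ Thin g ∧
      ∀ (a : ℝ) (k : ℕ → ℤ), (∀ n, |k n * ε n - a| ≤ cc n (y n)) →
        ∀ u v w, ![u, v, w, a, 0] ∈ O (HH g) 0 := by
  have db : ∀ (b : ContDiffBump (1 : ℝ)) (t : ℝ), ContDiff ℝ ∞ fun s => b (s / t) := fun b t =>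
    b.contDiff.comp (contDiff_id.div_const t)
  have : ∀ (n : ℕ) (t : ℝ), ∃ c, 0 < t → c > (0 : ℝ) ∧ ∀ k ≤ n, ∀ x,
      c * ‖iteratedFDeriv ℝ k (fun s => b2 (s / t)) x‖ ≤ (1 / 2) ^ n := fun n t => by
    by_cases ht : 0 < t
    · obtain ⟨c, hc⟩ := small (u := fun s => b2 (s / t)) (fun k =>
        ((db b2 t).continuous_iteratedFDeriv (mod_cast le_top)).bounded_above_of_compact_support
          ((b2.hasCompactSupport.comp_homeomorph
            (Homeomorph.mulRight₀ t⁻¹ (inv_ne_zero ht.ne'))).iteratedFDeriv k)) n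
      exact ⟨c, fun _ => hc⟩
    · exact ⟨0, fun h => (ht h).elim⟩
  choose cc hc using this
  refine ⟨cc, fun n t ht => (hc n t ht).1, fun y ε h0 hy ty hε => ?_⟩
  obtain ⟨f, fs, df, fr⟩ := ty.isCompact_insert_range.isClosed.isOpen_compl.exists_contDiff_support_eq
    (n := ⊤)
  have fz : ∀ s, f s = 0 ↔ s = 0 ∨ ∃ n, y n = s := fun s => by
    rw [← not_iff_not, ← ne_eq, ← Function.mem_support, fs]; rfl
  set u : ℕ → ℝ × ℝ → ℝ := fun n z => b1 (z.2 / y n) * (1 - cos (2 * π * z.1 / ε n)) with hu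
  have du : ∀ n, ContDiff ℝ ∞ (u n) := fun n => ((db b1 _).comp contDiff_snd).mul (by fun_prop)
  have per : ∀ n x s (k : ℤ), u n (x + k * ε n, s) = u n (x, s) := fun n x s k => by
    simp only [hu]
    rw [← cos_add_int_mul_two_pi (2 * π * x / ε n) k]
    congr 3
    field_simp [(hε n).ne']
  have ub : ∀ n k, ∃ C, ∀ x, ‖iteratedFDeriv ℝ k (u n) x‖ ≤ C := fun n k => by
    obtain ⟨C, hC⟩ := ((isCompact_Icc (a := 0) (b := ε n)).prod
      (isCompact_Icc (a := 0) (b := 2 * y n))).exists_bound_of_continuousOn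
      ((du n).continuous_iteratedFDeriv (m := k) (mod_cast le_top)).continuousOn
    refine ⟨max C 0, fun z => ?_⟩
    by_cases hz : z.2 ∈ Icc 0 (2 * y n)
    · have e : u n = fun w => u n (w + (((-⌊z.1 / ε n⌋ : ℤ) : ℝ) * ε n, 0)) := funext fun w => by
        rw [← per n w.1 w.2 (-⌊z.1 / ε n⌋)]; congr 1; ext <;> simp
      rw [e, iteratedFDeriv_comp_add_right]
      refine (hC _ ⟨?_, by simpa using hz⟩).trans (le_max_left _ _)
      have a := Int.floor_le (z.1 / ε n)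
      have b := Int.lt_floor_add_one (z.1 / ε n)
      rw [le_div_iff₀ (hε n)] at a
      rw [div_lt_iff₀ (hε n)] at b
      simp only [Prod.fst_add, Int.cast_neg, mem_Icc]
      constructor <;> linarith
    · have e : u n =ᶠ[𝓝 z] 0 := by
        filter_upwards [(isClosed_Icc.preimage continuous_snd).isOpen_compl.mem_nhds hz] with w hw
        refine mul_eq_zero_of_left (by_contra fun h => hw ?_) _
        have := bz b1 (h0 n) h
        simp only [b1] at this
        constructor <;> linarith [h0 n]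
      rw [(e.iteratedFDeriv ℝ k).eq_of_nhds]
      simp
  choose c c0 hcu using fun n => small (ub n) n
  have b0 : ∀ (b : ContDiffBump (1 : ℝ)), b.rOut ≤ 1 → b 0 = 0 := fun b h =>
    b.zero_of_le_dist (by simpa using h)
  have one : ∀ n, b1 (y n / y n) = 1 := fun n => by
    rw [div_self (h0 n).ne']; exact b1.one_of_mem_closedBall (Metric.mem_closedBall_self b1.rIn_pos.le)
  have val : ∀ n x, ∑' m, c m * u m (x, y n) = c n * (1 - cos (2 * π * x / ε n)) := fun n x => by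
    rw [tsum_eq_single n fun m hm => ?_]
    · simp only [hu, one, one_mul]
    · refine mul_eq_zero_of_right _ (mul_eq_zero_of_left (by_contra fun h => ?_) _)
      have := (sep h0 hy h).1
      rw [(sep h0 hy (n := n) (by rw [one]; simp)).2 m hm] at this
      simp at this
  have cz : ∀ n x, c n * (1 - cos (2 * π * x / ε n)) = 0 ↔ ∃ k : ℤ, x = k * ε n := fun n x => by
    rw [mul_eq_zero, or_iff_right (c0 n).ne', sub_eq_zero, eq_comm, cos_eq_one_iff]
    refine exists_congr fun k => ?_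
    rw [eq_div_iff (hε n).ne', eq_comm]
    constructor <;> intro h
    · exact mul_left_cancel₀ two_pi_pos.ne' (by linarith)
    · rw [h]; ring
  set g : ℝ × ℝ → ℝ := fun z => f z.2 + ∑' n, c n * u n z with hg
  have dg : ContDiff ℝ ∞ g :=
    (df.comp contDiff_snd).add (ssum du (fun n => (abs_of_pos (c0 n)).le) hcu)
  have zs : ∀ z, g z = 0 ↔ z.2 = 0 ∨ ∃ n, z.2 = y n ∧ ∃ k : ℤ, z.1 = k * ε n := fun ⟨x, s⟩ => by
    constructor
    · intro h
      have p : 0 ≤ ∑' n, c n * u n (x, s) := tsum_nonneg fun n =>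
        mul_nonneg (c0 n).le (mul_nonneg b1.nonneg (sub_nonneg.2 (cos_le_one _)))
      have q := (fr (mem_range_self s)).1
      have f0 : f s = 0 := by simp only [hg] at h; linarith
      rcases (fz s).1 f0 with r | ⟨n, rfl⟩
      · exact .inl r
      · exact .inr ⟨n, rfl, (cz n x).1 (by simpa only [hg, f0, zero_add, val] using h)⟩
    · rintro (rfl | ⟨n, rfl, h⟩)
      · simp [hg, hu, (fz 0).2 (.inl rfl), b0 b1 (by norm_num [b1])]
      · simp only [hg, (fz _).2 (.inr ⟨n, rfl⟩), zero_add, val]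
        exact (cz n x).2 h
  refine ⟨g, dg, zs, ⟨fun x => (zs _).2 (.inl rfl), insert 0 (range y) ∪
    range fun p : ℤ × ℕ => p.1 * ε p.2, ((countable_range _).insert _).union (countable_range _),
    fun z hz => ?_⟩, fun a k hk u v w => ?_⟩
  · rcases (zs z).1 hz with h | ⟨n, h, k, e⟩
    · exact ⟨.inl (.inl h), fun h' => (h' h).elim⟩
    · exact ⟨.inl (.inr ⟨n, h.symm⟩), fun _ => .inr ⟨(k, n), e.symm⟩⟩
  · have := shear dg (α := fun s => a + ∑' n, (k n * ε n - a) * b2 (s / y n))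
      (contDiff_const.add (ssum (fun n => db b2 _) hk fun n => (hc n _ (h0 n)).2))
      (fun x s => by
        simp only [hg]
        congr 2
        ext n
        by_cases h : b1 (s / y n) = 0
        · simp only [hu, h, zero_mul]
        · rw [tsum_eq_single n fun m hm => by rw [(sep h0 hy h).2 m hm, mul_zero],
            (sep h0 hy h).1, mul_one, add_sub_cancel, per]) u v w
    simpa [b0 b2 (by norm_num [b2])] using this

end Pool.Agent.H.MP_430a41_an
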